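import Mathlib

set_option autoImplicit false

namespace Pool.Agent.MP_38bec9_co

open Finset

/-- pairs of colours `i < j` -/
abbrev Pr (C : ℕ) := {p : Fin C × Fin C // p.1 < p.2}

/-- the rank functions `r h` separate the pairs `{a, b}` and `{c, d}` -/
def Sep {V ι : Type} (r : ι → V → ℕ) (a b c d : V) : Prop :=
  ∃ h, (r h a < r h c ∧ r h a < r h d ∧ r h b < r h c ∧ r h b < r h d) ∨
    (r h c < r h a ∧ r h c < r h b ∧ r h d < r h a ∧ r h d < r h b)

/-- `σ` is good for `r` : any two matching edges without common vertex are separated -/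
def Good {C n : ℕ} {ι : Type} (r : ι → Fin C × Fin n → ℕ) (σ : Pr C → Equiv.Perm (Fin n)) : Prop :=
  ∀ (e : Pr C) (x : Fin n) (e' : Pr C) (x' : Fin n),
    ((e.1.1, x) : Fin C × Fin n) ≠ (e'.1.1, x') →
    ((e.1.1, x) : Fin C × Fin n) ≠ (e'.1.2, σ e' x') →
    ((e.1.2, σ e x) : Fin C × Fin n) ≠ (e'.1.1, x') →
    ((e.1.2, σ e x) : Fin C × Fin n) ≠ (e'.1.2, σ e' x') →
    Sep r (e.1.1, x) (e.1.2, σ e x) (e'.1.1, x') (e'.1.2, σ e' x')

section code

variable {C n J B : ℕ} {ι : Type}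

/-- relation between the code of a slot and the positions `s` (source) and `t` (target) -/
def CodeRel (J B : ℕ) (s t : ℕ) (c : Fin J × Bool × Fin (B + 1)) : Prop :=
  (c.2.1 = true → t / B ^ (c.1 : ℕ) = s / B ^ (c.1 : ℕ) + (c.2.2 : ℕ)) ∧
  (c.2.1 = false → s / B ^ (c.1 : ℕ) = t / B ^ (c.1 : ℕ) + (c.2.2 : ℕ))

lemma exists_code_lt (hB : 2 ≤ B) (s t : ℕ) (ht : t < B ^ J) (hst : s < t) :
    ∃ c : Fin J × Bool × Fin (B + 1), c.2.1 = true ∧ (c.2.2 : ℕ) ≠ 0 ∧
      t / B ^ (c.1 : ℕ) = s / B ^ (c.1 : ℕ) + (c.2.2 : ℕ) := by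
  set d := t - s with hd
  have hd0 : d ≠ 0 := by omega
  set a := Nat.log B d with ha
  have h1 : B ^ a ≤ d := Nat.pow_log_le_self B hd0
  have h2 : d < B ^ (a + 1) := Nat.lt_pow_succ_log_self (by omega) d
  have haJ : a < J := by
    have : B ^ a < B ^ J := lt_of_le_of_lt h1 (by omega)
    exact (Nat.pow_lt_pow_iff_right (by omega)).1 this
  have hpos : 0 < B ^ a := by positivity
  have h3 : s / B ^ a + 1 ≤ t / B ^ a := by
    have : (s + B ^ a) / B ^ a ≤ t / B ^ a := Nat.div_le_div_right (by omega)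
    rwa [Nat.add_div_right _ hpos] at this
  have h4 : t / B ^ a ≤ s / B ^ a + B := by
    have : t / B ^ a ≤ (s + B * B ^ a) / B ^ a := Nat.div_le_div_right (by
      rw [pow_succ, mul_comm] at h2; omega)
    rwa [Nat.add_mul_div_right _ _ hpos] at this
  refine ⟨(⟨a, haJ⟩, true, ⟨t / B ^ a - s / B ^ a, by omega⟩), rfl, ?_, ?_⟩
  · simp only; omega
  · simp only; omega

lemma exists_code (hB : 2 ≤ B) (s t : ℕ) (hs : s < B ^ J) (ht : t < B ^ J) (hst : s ≠ t) :
    ∃ c : Fin J × Bool × Fin (B + 1), (c.2.2 : ℕ) ≠ 0 ∧ CodeRel J B s t c := by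
  rcases lt_or_gt_of_ne hst with h | h
  · obtain ⟨c, h1, h2, h3⟩ := exists_code_lt hB s t ht h
    exact ⟨c, h2, fun _ => h3, fun h' => by simp [h1] at h'⟩
  · obtain ⟨c, h1, h2, h3⟩ := exists_code_lt hB t s hs h
    refine ⟨(c.1, false, c.2.2), h2, fun h' => by simp at h', fun _ => h3⟩

open Classical in
/-- the code of the matching edge that starts at the slot `(e, x)` -/
noncomputable def code (J B : ℕ) (hJ : 0 < J) (r : ι → Fin C × Fin n → ℕ)
    (σ : Pr C → Equiv.Perm (Fin n)) (s : Pr C × Fin n) (h : ι) : Fin J × Bool × Fin (B + 1) :=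
  if H : ∃ c : Fin J × Bool × Fin (B + 1), (c.2.2 : ℕ) ≠ 0 ∧
      CodeRel J B (r h (s.1.1.1, s.2)) (r h (s.1.1.2, σ s.1 s.2)) c then H.choose
    else (⟨0, hJ⟩, true, 0)

lemma code_spec (hJ : 0 < J) (hB : 2 ≤ B) (r : ι → Fin C × Fin n → ℕ)
    (hinj : ∀ h, Function.Injective (r h)) (hlt : ∀ h v, r h v < B ^ J)
    (σ : Pr C → Equiv.Perm (Fin n)) (s : Pr C × Fin n) (h : ι) :
    ((code J B hJ r σ s h).2.2 : ℕ) ≠ 0 ∧
      CodeRel J B (r h (s.1.1.1, s.2)) (r h (s.1.1.2, σ s.1 s.2)) (code J B hJ r σ s h) := by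
  have H : ∃ c : Fin J × Bool × Fin (B + 1), (c.2.2 : ℕ) ≠ 0 ∧
      CodeRel J B (r h (s.1.1.1, s.2)) (r h (s.1.1.2, σ s.1 s.2)) c := by
    apply exists_code hB _ _ (hlt _ _) (hlt _ _)
    intro h'
    have := hinj h h'
    have h2 := congrArg Prod.fst this
    exact absurd h2 (ne_of_lt s.1.2)
  unfold code
  rw [dif_pos H]
  exact H.choose_spec

open Classical in
/-- candidates for the target of a slot, given the code -/
noncomputable def cand (J B : ℕ) (r : ι → Fin C × Fin n → ℕ)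
    (α : Pr C × Fin n → ι → Fin J × Bool × Fin (B + 1)) (s : Pr C × Fin n) : Finset (Fin n) :=
  univ.filter (fun y => ∀ h, CodeRel J B (r h (s.1.1.1, s.2)) (r h (s.1.1.2, y)) (α s h))

lemma mem_cand (r : ι → Fin C × Fin n → ℕ)
    (α : Pr C × Fin n → ι → Fin J × Bool × Fin (B + 1)) (s : Pr C × Fin n) (y : Fin n) :
    y ∈ cand J B r α s ↔
      ∀ h, CodeRel J B (r h (s.1.1.1, s.2)) (r h (s.1.1.2, y)) (α s h) := by
  simp [cand]

/-- two slots in the same class whose targets lie in the same cell share source or target -/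
lemma share [Nonempty ι] (hJ : 0 < J) (hB : 2 ≤ B) (r : ι → Fin C × Fin n → ℕ)
    (hinj : ∀ h, Function.Injective (r h)) (hlt : ∀ h v, r h v < B ^ J)
    (σ : Pr C → Equiv.Perm (Fin n)) (hσ : Good r σ)
    (s s' : Pr C × Fin n) (y : Fin n) (hj : s.1.1.2 = s'.1.1.2)
    (hc1 : ∀ h, (code J B hJ r σ s h).1 = (code J B hJ r σ s' h).1)
    (hc2 : ∀ h, (code J B hJ r σ s h).2.1 = (code J B hJ r σ s' h).2.1)
    (hy : y ∈ cand J B r (code J B hJ r σ) s) (hy' : y ∈ cand J B r (code J B hJ r σ) s') :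
    s = s' ∨ σ s.1 s.2 = σ s'.1 s'.2 := by
  by_contra hcon
  push Not at hcon
  obtain ⟨hne, hne2⟩ := hcon
  rw [mem_cand] at hy hy'
  have key : ∀ h, ∃ a : ℕ, (r h (s.1.1.1, s.2) / B ^ a < r h (s.1.1.2, y) / B ^ a ∧
      r h (s'.1.1.1, s'.2) / B ^ a < r h (s.1.1.2, y) / B ^ a ∧
      r h (s.1.1.2, σ s.1 s.2) / B ^ a = r h (s.1.1.2, y) / B ^ a ∧
      r h (s'.1.1.2, σ s'.1 s'.2) / B ^ a = r h (s.1.1.2, y) / B ^ a) ∨
      (r h (s.1.1.2, y) / B ^ a < r h (s.1.1.1, s.2) / B ^ a ∧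
      r h (s.1.1.2, y) / B ^ a < r h (s'.1.1.1, s'.2) / B ^ a ∧
      r h (s.1.1.2, σ s.1 s.2) / B ^ a = r h (s.1.1.2, y) / B ^ a ∧
      r h (s'.1.1.2, σ s'.1 s'.2) / B ^ a = r h (s.1.1.2, y) / B ^ a) := by
    intro h
    have e1 := code_spec hJ hB r hinj hlt σ s h
    have e2 := code_spec hJ hB r hinj hlt σ s' h
    have e3 := hy h
    have e4 := hy' h
    have e5 := hc1 h
    have e6 := hc2 h
    rw [← hj] at e2 e4 ⊢
    generalize code J B hJ r σ s h = c at *
    generalize code J B hJ r σ s' h = c' at *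
    obtain ⟨a, b, o⟩ := c
    obtain ⟨a', b', o'⟩ := c'
    simp only at e5 e6
    subst e5 e6
    unfold CodeRel at *
    refine ⟨a, ?_⟩
    simp only at *
    cases b with
    | true =>
      left
      have f1 := e1.2.1 rfl
      have f2 := e2.2.1 rfl
      have f3 := e3.1 rfl
      have f4 := e4.1 rfl
      have g1 := e1.1
      have g2 := e2.1
      refine ⟨by omega, by omega, by omega, by omega⟩
    | false =>
      right
      have f1 := e1.2.2 rfl
      have f2 := e2.2.2 rfl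
      have f3 := e3.2 rfl
      have f4 := e4.2 rfl
      have g1 := e1.1
      have g2 := e2.1
      refine ⟨by omega, by omega, by omega, by omega⟩
  have hd := hσ s.1 s.2 s'.1 s'.2 ?_ ?_ ?_ ?_
  · obtain ⟨h, hh⟩ := hd
    obtain ⟨a, ha⟩ := key h
    have mono : ∀ u v : ℕ, u < v → u / B ^ a ≤ v / B ^ a := fun u v huv =>
      Nat.div_le_div_right huv.le
    rcases hh with ⟨_, h2, h3, _⟩ | ⟨_, h2, h3, _⟩
    · have m2 := mono _ _ h2
      have m3 := mono _ _ h3
      rcases ha with ha | ha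
      · omega
      · omega
    · have m2 := mono _ _ h2
      have m3 := mono _ _ h3
      rcases ha with ha | ha
      · omega
      · omega
  · intro h'
    apply hne
    have h1 : s.1.1.1 = s'.1.1.1 := (Prod.ext_iff.1 h').1
    have h2 : s.2 = s'.2 := (Prod.ext_iff.1 h').2
    exact Prod.ext (Subtype.ext (Prod.ext h1 hj)) h2
  · intro h'
    obtain ⟨h⟩ := ‹Nonempty ι›
    obtain ⟨a, ha⟩ := key h
    rw [h'] at ha
    omega
  · intro h'
    obtain ⟨h⟩ := ‹Nonempty ι›
    obtain ⟨a, ha⟩ := key h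
    rw [h'] at ha
    omega
  · intro h'
    exact hne2 (Prod.ext_iff.1 h').2

open Classical in
lemma sum_cand_le [Fintype ι] [Nonempty ι] (hJ : 0 < J) (hB : 2 ≤ B) (r : ι → Fin C × Fin n → ℕ)
    (hinj : ∀ h, Function.Injective (r h)) (hlt : ∀ h v, r h v < B ^ J)
    (σ : Pr C → Equiv.Perm (Fin n)) (hσ : Good r σ) :
    ∑ s, (cand J B r (code J B hJ r σ) s).card ≤
      (Fintype.card (Pr C) + 1) * ((C * n) * (2 * J) ^ Fintype.card ι) := by
  classical
  set Z : Finset ((Pr C × Fin n) × Fin n) :=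
    univ.filter (fun p => p.2 ∈ cand J B r (code J B hJ r σ) p.1) with hZ
  have hcard : ∑ s, (cand J B r (code J B hJ r σ) s).card = Z.card := by
    have h1 : Z = univ.biUnion (fun s => (cand J B r (code J B hJ r σ) s).image (fun y => (s, y))) := by
      ext ⟨s, y⟩
      simp [hZ]
    rw [h1, card_biUnion]
    · apply sum_congr rfl
      intro s _
      rw [card_image_of_injective _ (fun a b h => by simpa using h)]
    · intro s _ s' _ hss
      rw [Function.onFun, disjoint_left]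
      rintro ⟨a, b⟩ h1 h2
      obtain ⟨_, _, h3⟩ := mem_image.1 h1
      obtain ⟨_, _, h4⟩ := mem_image.1 h2
      exact hss ((Prod.ext_iff.1 h3).1.trans (Prod.ext_iff.1 h4).1.symm)
  rw [hcard]
  let f : (Pr C × Fin n) × Fin n → (Fin C × Fin n) × (ι → Fin J × Bool) := fun p =>
    ((p.1.1.1.2, p.2), fun h => ((code J B hJ r σ p.1 h).1, (code J B hJ r σ p.1 h).2.1))
  have hfib : ∀ b ∈ Z.image f, (Z.filter (fun a => f a = b)).card ≤ Fintype.card (Pr C) + 1 := by
    intro b hb
    obtain ⟨p0, hp0, hp0b⟩ := mem_image.1 hb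
    have hsub : Z.filter (fun a => f a = b) ⊆
        insert p0 (univ.image (fun e : Pr C => ((e, (σ e).symm (σ p0.1.1 p0.1.2)), p0.2))) := by
      intro p hp
      obtain ⟨hpZ, hpb⟩ := mem_filter.1 hp
      have hff : f p = f p0 := hpb.trans hp0b.symm
      simp only [f, Prod.mk.injEq] at hff
      obtain ⟨⟨h1, h2⟩, h3⟩ := hff
      have hy : p0.2 ∈ cand J B r (code J B hJ r σ) p.1 := by
        have := (mem_filter.1 hpZ).2
        rwa [h2] at this
      have hy' : p0.2 ∈ cand J B r (code J B hJ r σ) p0.1 := (mem_filter.1 hp0).2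
      have h4 := share hJ hB r hinj hlt σ hσ p.1 p0.1 p0.2 h1
        (fun h => (Prod.ext_iff.1 (congrFun h3 h)).1) (fun h => (Prod.ext_iff.1 (congrFun h3 h)).2)
        hy hy'
      rcases h4 with h4 | h4
      · apply mem_insert.2
        left
        exact Prod.ext h4 h2
      · apply mem_insert_of_mem
        apply mem_image.2
        refine ⟨p.1.1, mem_univ _, ?_⟩
        rw [← h4, Equiv.symm_apply_apply, ← h2]
    refine (card_le_card hsub).trans ((card_insert_le _ _).trans ?_)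
    gcongr
    exact card_image_le.trans (by simp)
  refine (card_le_mul_card_image Z _ hfib).trans ?_
  gcongr
  refine (card_le_univ _).trans ?_
  simp [mul_comm]

open Classical in
/-- Main counting estimate. -/
theorem card_good_le [Fintype ι] [Nonempty ι] (hJ : 0 < J) (hB : 2 ≤ B)
    (r : ι → Fin C × Fin n → ℕ)
    (hinj : ∀ h, Function.Injective (r h)) (hlt : ∀ h v, r h v < B ^ J) :
    (univ.filter (fun σ : Pr C → Equiv.Perm (Fin n) => Good r σ)).card ≤
      2 ^ ((Fintype.card (Pr C) + 1) * ((C * n) * (2 * J) ^ Fintype.card ι)) *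
      ((J * (2 * (B + 1))) ^ Fintype.card ι) ^ (Fintype.card (Pr C) * n) := by
  classical
  have hfib : ∀ b ∈ (univ.filter (fun σ : Pr C → Equiv.Perm (Fin n) => Good r σ)).image
      (fun σ => code J B hJ r σ),
      ((univ.filter (fun σ : Pr C → Equiv.Perm (Fin n) => Good r σ)).filter
        (fun σ => code J B hJ r σ = b)).card ≤
      2 ^ ((Fintype.card (Pr C) + 1) * ((C * n) * (2 * J) ^ Fintype.card ι)) := by
    intro α hα
    obtain ⟨σ0, hσ0, hσ0α⟩ := mem_image.1 hα
    have hσ0g : Good r σ0 := (mem_filter.1 hσ0).2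
    have h1 : ((univ.filter (fun σ : Pr C → Equiv.Perm (Fin n) => Good r σ)).filter
        (fun σ => code J B hJ r σ = α)).card ≤
        (Fintype.piFinset (fun s : Pr C × Fin n => cand J B r α s)).card := by
      apply card_le_card_of_injOn (fun σ s => σ s.1 s.2)
      · intro σ hσ
        rw [mem_coe, mem_filter] at hσ
        rw [mem_coe, Fintype.mem_piFinset]
        intro s
        rw [mem_cand]
        intro h
        rw [← hσ.2]
        exact (code_spec hJ hB r hinj hlt σ s h).2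
      · intro σ _ τ _ h
        funext e
        ext x
        exact congrArg Fin.val (congrFun h (e, x))
    refine h1.trans ?_
    rw [Fintype.card_piFinset]
    have h2 : ∏ s, (cand J B r α s).card ≤ ∏ s, 2 ^ (cand J B r α s).card :=
      prod_le_prod' (fun s _ => Nat.lt_two_pow_self.le)
    refine h2.trans ?_
    rw [prod_pow_eq_pow_sum]
    apply Nat.pow_le_pow_right (by norm_num)
    rw [← hσ0α]
    exact sum_cand_le hJ hB r hinj hlt σ0 hσ0g
  refine (card_le_mul_card_image _ _ hfib).trans ?_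
  gcongr
  refine (card_le_univ _).trans ?_
  simp only [Fintype.card_pi, Fintype.card_prod, Fintype.card_fin, Fintype.card_bool, prod_const,
    card_univ]
  exact le_rfl

end code

end Pool.Agent.MP_38bec9_co
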