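import Mathlib

set_option autoImplicit false

namespace Pool.Agent.MP_38bec9_co

/-- `ab` and `cd` are two edges of `G` that share no endpoint. -/
def DisjEdges {V : Type} (G : SimpleGraph V) (a b c d : V) : Prop :=
  G.Adj a b ∧ G.Adj c d ∧ a ≠ c ∧ a ≠ d ∧ b ≠ c ∧ b ≠ d

/-- The finite family `F` of linear orders of `V(G)` is pairwise suitable for `G`: for every two
disjoint edges `ab`, `cd` some order of `F` puts both `a, b` before both `c, d`, or both `c, d`
before both `a, b`. -/
def PairwiseSuitable {V : Type} (G : SimpleGraph V) (F : Finset (LinearOrder V)) : Prop :=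
  ∀ a b c d : V, DisjEdges G a b c d → ∃ σ ∈ F,
    (σ.lt a c ∧ σ.lt a d ∧ σ.lt b c ∧ σ.lt b d) ∨ (σ.lt c a ∧ σ.lt c b ∧ σ.lt d a ∧ σ.lt d b)

/-- The separation dimension `π(G)`: the least size of a pairwise suitable family. -/
noncomputable def sepDim {V : Type} (G : SimpleGraph V) : ℕ :=
  sInf {k : ℕ | ∃ F : Finset (LinearOrder V), F.card = k ∧ PairwiseSuitable G F}

/-- Euclidean three-space. -/
abbrev E3 : Type := EuclideanSpace ℝ (Fin 3)

/-- `H` is a plane of `ℝ³`: an affine subspace with two-dimensional direction. -/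
def IsPlane (H : AffineSubspace ℝ E3) : Prop := Module.finrank ℝ H.direction = 2

/-- `φ` is a `P`-separating embedding of `G`: it is injective, and for every two disjoint edges
`uv`, `xy` there is a plane `H` parallel to a member of `P` such that the segments
`[φ u, φ v]` and `[φ x, φ y]` lie strictly on opposite sides of `H`. -/
def PSeparating {V : Type} (G : SimpleGraph V) (P : Finset (AffineSubspace ℝ E3)) (φ : V → E3) :
    Prop :=
  Function.Injective φ ∧ ∀ u v x y : V, DisjEdges G u v x y →
    ∃ H : AffineSubspace ℝ E3, (∃ H' ∈ P, H.Parallel H') ∧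
      ∀ p ∈ segment ℝ (φ u) (φ v), ∀ q ∈ segment ℝ (φ x) (φ y), H.SOppSide p q

/-- `π₃(G)`: the least size of a finite set `P` of pairwise non-parallel planes for which `G` has
a `P`-separating embedding. -/
noncomputable def pi3 {V : Type} (G : SimpleGraph V) : ℕ :=
  sInf {k : ℕ | ∃ P : Finset (AffineSubspace ℝ E3), P.card = k ∧ (∀ H ∈ P, IsPlane H) ∧
    (∀ H ∈ P, ∀ H' ∈ P, H ≠ H' → ¬ H.Parallel H') ∧ ∃ φ : V → E3, PSeparating G P φ}

end Pool.Agent.MP_38bec9_co
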