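import Pool.Agent.MP_38bec9_co.Defs

set_option autoImplicit false

namespace Pool.Agent.MP_38bec9_co

open Finset

/-- linear functional on `ℝ³` with given coefficients -/
noncomputable def lin (a b c : ℝ) : E3 →ₗ[ℝ] ℝ where
  toFun z := a * z 0 + b * z 1 + c * z 2
  map_add' x y := by simp; ring
  map_smul' r x := by simp; ring

/-- point of the moment curve -/
noncomputable def mc (t : ℝ) : E3 := !₂[t, t ^ 2, t ^ 3]

lemma lin_mc (a b c t : ℝ) : lin a b c (mc t) = a * t + b * t ^ 2 + c * t ^ 3 := by
  simp [lin, mc]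

/-- interpolation: four distinct reals, values `-1, -1, 1, 1` -/
lemma exists_cubic (t : Fin 4 → ℝ) (ht : Function.Injective t) :
    ∃ c0 c1 c2 c3 : ℝ, ∀ i : Fin 4, c0 + c1 * t i + c2 * t i ^ 2 + c3 * t i ^ 3 =
      if (i : ℕ) < 2 then -1 else 1 := by
  classical
  set r : Fin 4 → ℝ := fun i => if (i : ℕ) < 2 then -1 else 1 with hr
  set p := Lagrange.interpolate (univ : Finset (Fin 4)) t r with hp
  have hdeg : p.degree < ((univ : Finset (Fin 4)).card : ℕ) :=
    Lagrange.degree_interpolate_lt r (ht.injOn)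
  have hnat : p.natDegree < 4 := by
    by_cases h0 : p = 0
    · rw [h0]; simp
    · rw [Polynomial.natDegree_lt_iff_degree_lt h0]
      simpa using hdeg
  refine ⟨p.coeff 0, p.coeff 1, p.coeff 2, p.coeff 3, fun i => ?_⟩
  have h1 : p.eval (t i) = r i := Lagrange.eval_interpolate_at_node r ht.injOn (mem_univ i)
  rw [Polynomial.eval_eq_sum_range' hnat] at h1
  simp only [sum_range_succ, sum_range_zero, pow_zero, pow_one, mul_one, zero_add] at h1
  rw [h1]

lemma segment_val (ν : E3 →ₗ[ℝ] ℝ) (c : ℝ) (a b p : E3) (ha : ν a = c) (hb : ν b = c)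
    (hp : p ∈ segment ℝ a b) : ν p = c := by
  obtain ⟨s, t, _, _, hst, rfl⟩ := hp
  rw [map_add, map_smul, map_smul, ha, hb, smul_eq_mul, smul_eq_mul, ← add_mul, hst, one_mul]

lemma exists_plane (t : Fin 4 → ℝ) (ht : Function.Injective t) :
    ∃ H : AffineSubspace ℝ E3, IsPlane H ∧
      ∀ p ∈ segment ℝ (mc (t 0)) (mc (t 1)), ∀ q ∈ segment ℝ (mc (t 2)) (mc (t 3)),
        H.SOppSide p q := by
  obtain ⟨c0, c1, c2, c3, hc⟩ := exists_cubic t ht
  set ν := lin c1 c2 c3 with hν
  have h0 : ν (mc (t 0)) = -1 - c0 := by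
    have := hc 0
    rw [hν, lin_mc]; simp at this; linarith
  have h1 : ν (mc (t 1)) = -1 - c0 := by
    have := hc 1
    rw [hν, lin_mc]; simp at this; linarith
  have h2 : ν (mc (t 2)) = 1 - c0 := by
    have := hc 2
    rw [hν, lin_mc]; simp at this; linarith
  have h3 : ν (mc (t 3)) = 1 - c0 := by
    have := hc 3
    rw [hν, lin_mc]; simp at this; linarith
  have hν0 : ν ≠ 0 := by
    intro h
    rw [h] at h0 h2
    simp at h0 h2
    linarith
  set z0 := midpoint ℝ (mc (t 0)) (mc (t 2)) with hz0
  have hz : ν z0 = -c0 := by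
    rw [hz0, midpoint_eq_smul_add, map_smul, map_add, h0, h2]
    simp only [invOf_eq_inv, smul_eq_mul]
    ring
  refine ⟨AffineSubspace.mk' z0 (LinearMap.ker ν), ?_, ?_⟩
  · unfold IsPlane
    rw [AffineSubspace.direction_mk']
    have hr : Module.finrank ℝ (LinearMap.range ν) = 1 := by
      rw [LinearMap.range_eq_top.2 (LinearMap.surjective hν0)]
      simp
    have := LinearMap.finrank_range_add_finrank_ker ν
    rw [hr] at this
    have h4 : Module.finrank ℝ E3 = 3 := by simp
    omega
  · intro p hp q hq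
    have hp' := segment_val ν _ _ _ p h0 h1 hp
    have hq' := segment_val ν _ _ _ q h2 h3 hq
    have hne : p ≠ q := by
      intro h
      rw [h] at hp'
      linarith
    apply (sbtw_midpoint_of_ne ℝ hne).sOppSide_of_notMem_of_mem
    · rw [AffineSubspace.mem_mk', LinearMap.mem_ker, vsub_eq_sub, map_sub, hp', hz]
      intro h
      linarith
    · rw [AffineSubspace.mem_mk', LinearMap.mem_ker, vsub_eq_sub, map_sub, hz,
        midpoint_eq_smul_add, map_smul, map_add, hp', hq']
      simp only [invOf_eq_inv, smul_eq_mul]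
      ring

open Classical in
/-- `π₃(G)` is the minimum of a nonempty set for every finite graph `G`. -/
theorem pi3_nonempty {V : Type} [Fintype V] (G : SimpleGraph V) :
    {k : ℕ | ∃ P : Finset (AffineSubspace ℝ E3), P.card = k ∧ (∀ H ∈ P, IsPlane H) ∧
      (∀ H ∈ P, ∀ H' ∈ P, H ≠ H' → ¬ H.Parallel H') ∧ ∃ φ : V → E3, PSeparating G P φ}.Nonempty := by
  let t : V → ℝ := fun v => ((Fintype.equivFin V v : ℕ) : ℝ)
  have ht : Function.Injective t := by
    intro a b h
    have h1 : ((Fintype.equivFin V a : ℕ) : ℝ) = ((Fintype.equivFin V b : ℕ) : ℝ) := h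
    have h2 : (Fintype.equivFin V a : ℕ) = (Fintype.equivFin V b : ℕ) := by exact_mod_cast h1
    exact (Fintype.equivFin V).injective (Fin.ext h2)
  have key : ∀ q : V × V × V × V, DisjEdges G q.1 q.2.1 q.2.2.1 q.2.2.2 →
      ∃ H : AffineSubspace ℝ E3, IsPlane H ∧
      ∀ p ∈ segment ℝ (mc (t q.1)) (mc (t q.2.1)),
        ∀ p' ∈ segment ℝ (mc (t q.2.2.1)) (mc (t q.2.2.2)), H.SOppSide p p' := by
    rintro ⟨u, v, x, y⟩ ⟨huv, hxy, hux, huy, hvx, hvy⟩
    have huv' := huv.ne
    have hxy' := hxy.ne
    have := exists_plane ![t u, t v, t x, t y] ?_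
    · simpa using this
    · intro i j hij
      fin_cases i <;> fin_cases j <;> simp at hij <;> first
        | rfl
        | (exfalso; first
            | exact huv' (ht hij) | exact hxy' (ht hij) | exact hux (ht hij) | exact huy (ht hij)
            | exact hvx (ht hij) | exact hvy (ht hij) | exact huv' (ht hij.symm)
            | exact hxy' (ht hij.symm) | exact hux (ht hij.symm) | exact huy (ht hij.symm)
            | exact hvx (ht hij.symm) | exact hvy (ht hij.symm))
  choose! Hf hHf using key
  let Q : Finset (V × V × V × V) := univ.filter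
    (fun q : V × V × V × V => DisjEdges G q.1 q.2.1 q.2.2.1 q.2.2.2)
  let P : Finset (AffineSubspace ℝ E3) := Q.image (fun q => (Hf q).direction.toAffineSubspace)
  refine ⟨P.card, P, rfl, ?_, ?_, fun v => mc (t v), ?_, ?_⟩
  · intro H hH
    obtain ⟨q, hq, rfl⟩ := mem_image.1 hH
    unfold IsPlane
    rw [Submodule.toAffineSubspace_direction]
    exact (hHf q (mem_filter.1 hq).2).1
  · intro H hH H' hH' hne hpar
    obtain ⟨q, hq, rfl⟩ := mem_image.1 hH
    obtain ⟨q', hq', rfl⟩ := mem_image.1 hH'
    have := hpar.direction_eq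
    rw [Submodule.toAffineSubspace_direction, Submodule.toAffineSubspace_direction] at this
    rw [this] at hne
    exact hne rfl
  · intro a b h
    have : mc (t a) 0 = mc (t b) 0 := congrArg (fun z : E3 => z 0) h
    simp [mc] at this
    exact ht this
  · intro u v x y hd
    have h := hHf (u, v, x, y) hd
    refine ⟨Hf (u, v, x, y), ⟨(Hf (u, v, x, y)).direction.toAffineSubspace, ?_, ?_⟩, h.2⟩
    · exact mem_image.2 ⟨(u, v, x, y), mem_filter.2 ⟨mem_univ _, hd⟩, rfl⟩
    · rw [AffineSubspace.parallel_iff_direction_eq_and_eq_bot_iff_eq_bot]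
      refine ⟨(Submodule.toAffineSubspace_direction _).symm, ?_⟩
      have h2 : IsPlane (Hf (u, v, x, y)) := h.1
      constructor
      · intro h3
        rw [h3] at h2
        unfold IsPlane at h2
        rw [AffineSubspace.direction_bot, finrank_bot] at h2
        omega
      · intro h3
        have : (0 : E3) ∈ ((Hf (u, v, x, y)).direction.toAffineSubspace) := by
          rw [Submodule.mem_toAffineSubspace]; exact Submodule.zero_mem _
        rw [h3] at this
        exact absurd this (AffineSubspace.notMem_bot _ _ _)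

end Pool.Agent.MP_38bec9_co
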