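import Mathlib

set_option autoImplicit false

namespace Pool.Agent.MP_38bec9_co

lemma pow_self_le (n : ℕ) : n ^ n ≤ n.factorial * 3 ^ n := by
  have h1 := Real.pow_div_factorial_le_exp (n : ℝ) (by positivity) n
  have h2 : Real.exp (n : ℝ) ≤ 3 ^ n := by
    have h3 : Real.exp 1 ≤ 3 := by
      have := Real.exp_one_lt_d9
      linarith
    calc Real.exp (n : ℝ) = Real.exp 1 ^ n := by rw [← Real.exp_nat_mul]; simp
      _ ≤ 3 ^ n := by gcongr
  have h4 : (n : ℝ) ^ n ≤ n.factorial * 3 ^ n := by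
    have h5 : (0 : ℝ) < n.factorial := by exact_mod_cast n.factorial_pos
    rw [div_le_iff₀ h5] at h1
    calc (n : ℝ) ^ n ≤ Real.exp n * n.factorial := h1
      _ ≤ 3 ^ n * n.factorial := by gcongr
      _ = _ := by ring
  exact_mod_cast h4

theorem numeric (K : ℕ) (hK : 1 ≤ K) : ∃ b : ℕ, 1 ≤ b ∧
    (K * (20 * b ^ (4 * K)) ^ 2 + 1) ^ (3 * (20 * b ^ (4 * K))) *
      (2 ^ (191 * ((20 * b ^ (4 * K)) * (2 * (4 * K)) ^ K)) *
        (((4 * K) * (2 * (20 * b + 1))) ^ K) ^ (190 * b ^ (4 * K))) <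
      ((b ^ (4 * K)).factorial) ^ 190 := by
  set D : ℕ := (401 * K) ^ 60 * 2 ^ (3820 * (8 * K) ^ K) * (168 * K) ^ (190 * K) with hD
  set b : ℕ := D * 3 ^ 190 + 1 with hb
  have hb1 : 1 ≤ b := by omega
  refine ⟨b, hb1, ?_⟩
  set n := b ^ (4 * K) with hn
  have hn1 : 1 ≤ n := Nat.one_le_pow _ _ hb1
  have e1 : (K * (20 * n) ^ 2 + 1) ^ (3 * (20 * n)) ≤ ((401 * K) ^ 60 * n ^ 120) ^ n := by
    have : K * (20 * n) ^ 2 + 1 ≤ 401 * K * n ^ 2 := by nlinarith [Nat.one_le_pow 2 n hn1]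
    calc (K * (20 * n) ^ 2 + 1) ^ (3 * (20 * n)) ≤ (401 * K * n ^ 2) ^ (3 * (20 * n)) := by gcongr
      _ = ((401 * K) ^ 60 * n ^ 120) ^ n := by
        rw [show 3 * (20 * n) = 60 * n by ring, pow_mul, mul_pow, ← pow_mul]
  have e2 : 2 ^ (191 * ((20 * n) * (2 * (4 * K)) ^ K)) = (2 ^ (3820 * (8 * K) ^ K)) ^ n := by
    rw [← pow_mul]
    congr 1
    rw [show 2 * (4 * K) = 8 * K by ring]
    ring
  have e3 : (((4 * K) * (2 * (20 * b + 1))) ^ K) ^ (190 * n) ≤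
      ((168 * K) ^ (190 * K) * b ^ (190 * K)) ^ n := by
    have : (4 * K) * (2 * (20 * b + 1)) ≤ 168 * K * b := by nlinarith
    calc (((4 * K) * (2 * (20 * b + 1))) ^ K) ^ (190 * n) ≤ ((168 * K * b) ^ K) ^ (190 * n) := by
          gcongr
      _ = ((168 * K) ^ (190 * K) * b ^ (190 * K)) ^ n := by
        rw [← mul_pow, ← pow_mul, ← pow_mul]
        congr 1
        ring
  have hnb : n ^ 120 = b ^ (480 * K) := by
    rw [hn, ← pow_mul]; congr 1; ring
  have hnb2 : n ^ 190 = b ^ (760 * K) := by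
    rw [hn, ← pow_mul]; congr 1; ring
  have main : (D * b ^ (670 * K)) * 3 ^ 190 < n ^ 190 := by
    rw [hnb2]
    have h1 : b ^ (760 * K) = b ^ (90 * K) * b ^ (670 * K) := by rw [← pow_add]; congr 1; ring
    rw [h1]
    have h2 : D * 3 ^ 190 < b ^ (90 * K) := by
      calc D * 3 ^ 190 < b := by omega
        _ = b ^ 1 := (pow_one b).symm
        _ ≤ b ^ (90 * K) := Nat.pow_le_pow_right hb1 (by omega)
    have h3 : 0 < b ^ (670 * K) := by positivity
    calc D * b ^ (670 * K) * 3 ^ 190 = (D * 3 ^ 190) * b ^ (670 * K) := by ring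
      _ < b ^ (90 * K) * b ^ (670 * K) := Nat.mul_lt_mul_of_pos_right h2 h3
  have hL : (K * (20 * n) ^ 2 + 1) ^ (3 * (20 * n)) *
      (2 ^ (191 * ((20 * n) * (2 * (4 * K)) ^ K)) *
        (((4 * K) * (2 * (20 * b + 1))) ^ K) ^ (190 * n)) ≤ (D * b ^ (670 * K)) ^ n := by
    calc _ ≤ ((401 * K) ^ 60 * n ^ 120) ^ n * ((2 ^ (3820 * (8 * K) ^ K)) ^ n *
        ((168 * K) ^ (190 * K) * b ^ (190 * K)) ^ n) := by
          rw [e2]
          gcongr
      _ = (D * b ^ (670 * K)) ^ n := by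
        rw [← mul_pow, ← mul_pow, hnb]
        congr 1
        rw [hD, show 670 * K = 480 * K + 190 * K by ring, pow_add]
        ring
  have hf := pow_self_le n
  have h3 : 0 < (3 : ℕ) ^ (190 * n) := by positivity
  refine lt_of_mul_lt_mul_right ?_ h3.le
  calc _ ≤ (D * b ^ (670 * K)) ^ n * 3 ^ (190 * n) := by gcongr
    _ = (D * b ^ (670 * K) * 3 ^ 190) ^ n := by
        generalize D * b ^ (670 * K) = y
        rw [mul_pow y, ← pow_mul 3]
    _ < (n ^ 190) ^ n := Nat.pow_lt_pow_left main (by omega)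
    _ = (n ^ n) ^ 190 := by
        generalize n = z
        rw [← pow_mul z, ← pow_mul z, mul_comm]
    _ ≤ (n.factorial * 3 ^ n) ^ 190 := by gcongr
    _ = n.factorial ^ 190 * 3 ^ (190 * n) := by
        rw [mul_pow, ← pow_mul 3, mul_comm n 190]

end Pool.Agent.MP_38bec9_co
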