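import Mathlib

set_option autoImplicit false

namespace Pool.Agent.MP_38bec9_co

open Finset

lemma sum_choose_le (m d : ℕ) : ∑ k ∈ Iic d, m.choose k ≤ (m + 1) ^ d := by
  have h : Iic d = range (d + 1) := by ext; simp
  rw [h, add_pow]
  apply sum_le_sum
  intro k hk
  have hk' : k ≤ d := by simpa [Nat.lt_succ_iff] using hk
  calc m.choose k ≤ m ^ k := Nat.choose_le_pow m k
    _ = m ^ k * 1 * 1 := by ring
    _ ≤ m ^ k * 1 ^ (d - k) * d.choose k := by
        simp only [one_pow]
        gcongr
        exact Nat.choose_pos hk'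

section
variable {V ι : Type} [Fintype V] [Fintype ι]
variable {E : Type} [AddCommGroup E] [Module ℝ E]

open Classical in
/-- comparison pattern of a placement `p` in the directions `ν i` -/
noncomputable def pat (ν : ι → E →ₗ[ℝ] ℝ) (p : V → E) : Finset (ι × V × V) :=
  univ.filter (fun t => ν t.1 (p t.2.1) < ν t.1 (p t.2.2))

lemma mem_pat (ν : ι → E →ₗ[ℝ] ℝ) (p : V → E) (i : ι) (a b : V) :
    (i, a, b) ∈ pat ν p ↔ ν i (p a) < ν i (p b) := by
  simp [pat]

open Classical in
theorem card_pat_le [FiniteDimensional ℝ E] (ν : ι → E →ₗ[ℝ] ℝ) (𝒜 : Finset (Finset (ι × V × V)))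
    (h𝒜 : ∀ A ∈ 𝒜, ∃ p : V → E, pat ν p = A) :
    𝒜.card ≤ (Fintype.card (ι × V × V) + 1) ^ (Module.finrank ℝ (V → E)) := by
  classical
  have hvc : 𝒜.vcDim ≤ Module.finrank ℝ (V → E) := by
    unfold Finset.vcDim
    apply Finset.sup_le
    intro T hT
    rw [mem_shatterer] at hT
    by_contra hlt
    push Not at hlt
    let ℓ : (ι × V × V) → ((V → E) →ₗ[ℝ] ℝ) := fun t =>
      (ν t.1).comp (LinearMap.proj t.2.2) - (ν t.1).comp (LinearMap.proj t.2.1)
    have hℓ : ∀ t p, ℓ t p = ν t.1 (p t.2.2) - ν t.1 (p t.2.1) := by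
      intro t p
      simp [ℓ]
    have hnot : ¬ LinearIndependent ℝ (fun t : T => ℓ t) := by
      intro hli
      have h1 := hli.fintype_card_le_finrank
      rw [Fintype.card_coe] at h1
      have h2 : Module.finrank ℝ ((V → E) →ₗ[ℝ] ℝ) = Module.finrank ℝ (V → E) :=
        Subspace.dual_finrank_eq
      omega
    rw [Fintype.not_linearIndependent_iff] at hnot
    obtain ⟨g0, hg0, i0, hi0⟩ := hnot
    obtain ⟨g, hg, hi⟩ : ∃ g : T → ℝ, ∑ i, g i • ℓ i = 0 ∧ 0 < g i0 := by
      rcases lt_or_gt_of_ne hi0 with h | h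
      · refine ⟨fun i => - g0 i, ?_, by simpa using h⟩
        have h5 : ∑ x : T, -g0 x • ℓ x = - ∑ x : T, g0 x • ℓ x := by
          rw [← sum_neg_distrib]
          exact sum_congr rfl (fun x _ => neg_smul (g0 x) (ℓ x))
        rw [h5, hg0, neg_zero]
      · exact ⟨g0, hg0, h⟩
    let U : Finset (ι × V × V) := (univ.filter (fun t : T => 0 < g t)).map
      (Function.Embedding.subtype _)
    have hU : U ⊆ T := by
      intro t ht
      obtain ⟨s, _, rfl⟩ := mem_map.1 ht
      exact s.2
    obtain ⟨A, hA, hTA⟩ := hT hU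
    obtain ⟨p, rfl⟩ := h𝒜 A hA
    have hmem : ∀ t : T, (t : ι × V × V) ∈ pat ν p ↔ 0 < g t := by
      intro t
      constructor
      · intro h
        have : (t : ι × V × V) ∈ U := by rw [← hTA]; exact mem_inter.2 ⟨t.2, h⟩
        obtain ⟨s, hs, hst⟩ := mem_map.1 this
        have : s = t := Subtype.ext hst
        subst this
        exact (mem_filter.1 hs).2
      · intro h
        have : (t : ι × V × V) ∈ U := mem_map.2 ⟨t, mem_filter.2 ⟨mem_univ _, h⟩, rfl⟩
        rw [← hTA] at this
        exact (mem_inter.1 this).2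
    have hsum : ∑ t : T, g t * ℓ t p = 0 := by
      have := congrArg (fun L : (V → E) →ₗ[ℝ] ℝ => L p) hg
      simpa [LinearMap.sum_apply] using this
    have hpos : ∀ t : T, 0 ≤ g t * ℓ t p := by
      intro t
      have h1 := hmem t
      have h2 : (t : ι × V × V) ∈ pat ν p ↔ 0 < ℓ t p := by
        rw [hℓ, sub_pos]
        exact mem_pat ν p _ _ _
      by_cases h : 0 < g t
      · exact (mul_pos h (h2.1 (h1.2 h))).le
      · have h3 : ¬ 0 < ℓ t p := fun h' => h (h1.1 (h2.2 h'))
        push Not at h h3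
        exact mul_nonneg_of_nonpos_of_nonpos h h3
    have hpos0 : 0 < g i0 * ℓ i0 p := by
      have h2 : ((i0 : T) : ι × V × V) ∈ pat ν p ↔ 0 < ℓ i0 p := by
        rw [hℓ, sub_pos]
        exact mem_pat ν p _ _ _
      exact mul_pos hi (h2.1 ((hmem i0).2 hi))
    have : 0 < ∑ t : T, g t * ℓ t p :=
      sum_pos' (fun t _ => hpos t) ⟨i0, mem_univ _, hpos0⟩
    rw [hsum] at this
    exact lt_irrefl _ this
  calc 𝒜.card ≤ 𝒜.shatterer.card := card_le_card_shatterer 𝒜
    _ ≤ ∑ k ∈ Iic 𝒜.vcDim, (Fintype.card (ι × V × V)).choose k := card_shatterer_le_sum_vcDim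
    _ ≤ (Fintype.card (ι × V × V) + 1) ^ 𝒜.vcDim := sum_choose_le _ _
    _ ≤ _ := Nat.pow_le_pow_right (by omega) hvc

end

/-- ranks of a real function on a finite type -/
theorem exists_rank {V : Type} [Fintype V] (x : V → ℝ) :
    ∃ r : V → ℕ, Function.Injective r ∧ (∀ v, r v < Fintype.card V) ∧
      ∀ u v, x u < x v → r u < r v := by
  classical
  let e := Fintype.equivFin V
  let f : V → ℝ ×ₗ Fin (Fintype.card V) := fun v => toLex (x v, e v)
  have hf : Function.Injective f := by
    intro u v h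
    have := congrArg (fun z => (ofLex z).2) h
    exact e.injective this
  have hmono : ∀ u v, f u < f v →
      (univ.filter (fun w => f w < f u)).card < (univ.filter (fun w => f w < f v)).card := by
    intro u v h
    apply card_lt_card
    rw [ssubset_iff_of_subset]
    · exact ⟨u, by simpa using h, by simp⟩
    · intro w hw
      have := (mem_filter.1 hw).2
      exact mem_filter.2 ⟨mem_univ _, this.trans h⟩
  refine ⟨fun v => (univ.filter (fun w => f w < f v)).card, ?_, ?_, ?_⟩
  · intro u v h
    simp only at h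
    rcases lt_trichotomy (f u) (f v) with h' | h' | h'
    · have := hmono u v h'; omega
    · exact hf h'
    · have := hmono v u h'; omega
  · intro v
    have : (univ.filter (fun w => f w < f v)) ⊂ univ := by
      rw [ssubset_univ_iff]
      intro h
      have : v ∈ univ.filter (fun w => f w < f v) := by rw [h]; exact mem_univ _
      exact lt_irrefl _ (mem_filter.1 this).2
    simpa using card_lt_card this
  · intro u v h
    apply hmono
    exact Prod.Lex.left _ _ h

end Pool.Agent.MP_38bec9_co
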