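import Pool.Agent.MP_38bec9_co.Upper
import Pool.Agent.MP_38bec9_co.Finite
import Pool.Agent.MP_38bec9_co.Pattern
import Pool.Agent.MP_38bec9_co.Numeric

set_option autoImplicit false

namespace Pool.Agent.MP_38bec9_co

open Finset

lemma card_Pr : Fintype.card (Pr 20) = 190 := by
  rw [Fintype.card_subtype]
  decide +kernel

lemma exists_functional (H : AffineSubspace ℝ E3) (hH : IsPlane H) :
    ∃ ν : E3 →ₗ[ℝ] ℝ, LinearMap.ker ν = H.direction := by
  have hlt : H.direction < ⊤ := by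
    rw [lt_top_iff_ne_top]
    intro h
    unfold IsPlane at hH
    rw [h, finrank_top] at hH
    simp at hH
  obtain ⟨f, hf0, hf⟩ := Submodule.exists_le_ker_of_lt_top _ hlt
  refine ⟨f, ?_⟩
  symm
  apply Submodule.eq_of_le_of_finrank_eq hf
  have hr : Module.finrank ℝ (LinearMap.range f) = 1 := by
    rw [LinearMap.range_eq_top.2 (LinearMap.surjective hf0)]
    simp
  have := LinearMap.finrank_range_add_finrank_ker f
  rw [hr] at this
  have h4 : Module.finrank ℝ E3 = 3 := by simp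
  unfold IsPlane at hH
  omega

lemma side (H : AffineSubspace ℝ E3) (ν : E3 →ₗ[ℝ] ℝ) (hν : LinearMap.ker ν = H.direction)
    (z : E3) (hz : z ∈ H) (p q : E3) (h : H.SOppSide p q) :
    (ν p < ν z ∧ ν z < ν q) ∨ (ν q < ν z ∧ ν z < ν p) := by
  have hval : ∀ w ∈ H, ν w = ν z := by
    intro w hw
    have : w -ᵥ z ∈ H.direction := AffineSubspace.vsub_mem_direction hw hz
    rw [← hν, LinearMap.mem_ker, vsub_eq_sub, map_sub] at this
    linarith
  have hne : ∀ w, w ∉ H → ν w ≠ ν z := by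
    intro w hw h'
    apply hw
    have h1 : w -ᵥ z ∈ H.direction := by
      rw [← hν, LinearMap.mem_ker, vsub_eq_sub, map_sub, h', sub_self]
    have := AffineSubspace.vadd_mem_of_mem_direction h1 hz
    simpa using this
  obtain ⟨⟨p1, hp1, p2, hp2, hray⟩, hp, hq⟩ := h
  have h1 := hray.map ν
  rw [vsub_eq_sub, vsub_eq_sub, map_sub, map_sub, hval p1 hp1, hval p2 hp2] at h1
  have h2 : 0 ≤ (ν p - ν z) * (ν z - ν q) := by
    rcases h1 with h1 | h1 | ⟨r1, r2, hr1, hr2, h1⟩
    · rw [h1]; simp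
    · rw [h1]; simp
    · simp only [smul_eq_mul] at h1
      have : r1 * ((ν p - ν z) * (ν z - ν q)) = r2 * (ν z - ν q) ^ 2 := by
        rw [← mul_assoc, h1]; ring
      have h3 : 0 ≤ r1 * ((ν p - ν z) * (ν z - ν q)) := by rw [this]; positivity
      exact nonneg_of_mul_nonneg_right h3 hr1
  have hp' := hne p hp
  have hq' := hne q hq
  rcases lt_or_gt_of_ne hp' with h3 | h3
  · left
    refine ⟨h3, ?_⟩
    by_contra h4
    have h5 : ν q < ν z := lt_of_le_of_ne (not_lt.1 h4) hq'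
    nlinarith
  · right
    refine ⟨?_, h3⟩
    by_contra h4
    have h5 : ν z < ν q := lt_of_le_of_ne (not_lt.1 h4) (Ne.symm hq')
    nlinarith

/-- disjoint edges are separated by one of the functionals -/
lemma four (H : AffineSubspace ℝ E3) (ν : E3 →ₗ[ℝ] ℝ) (hν : LinearMap.ker ν = H.direction)
    (a b c d : E3) (h1 : H.SOppSide a c) (h2 : H.SOppSide a d) (h3 : H.SOppSide b c)
    (h4 : H.SOppSide b d) :
    (ν a < ν c ∧ ν a < ν d ∧ ν b < ν c ∧ ν b < ν d) ∨
      (ν c < ν a ∧ ν c < ν b ∧ ν d < ν a ∧ ν d < ν b) := by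
  obtain ⟨z, hz⟩ := h1.nonempty
  have e1 := side H ν hν z hz a c h1
  have e2 := side H ν hν z hz a d h2
  have e3 := side H ν hν z hz b c h3
  have e4 := side H ν hν z hz b d h4
  rcases e1 with e1 | e1
  · left
    have f2 : ν z < ν d := by
      rcases e2 with e2 | e2
      · exact e2.2
      · linarith [e2.2, e1.1]
    have f3 : ν b < ν z := by
      rcases e3 with e3 | e3
      · exact e3.1
      · linarith [e3.1, e1.2]
    exact ⟨by linarith [e1.1, e1.2], by linarith [e1.1], by linarith [e1.2], by linarith⟩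
  · right
    have f2 : ν d < ν z := by
      rcases e2 with e2 | e2
      · linarith [e2.1, e1.2]
      · exact e2.1
    have f3 : ν z < ν b := by
      rcases e3 with e3 | e3
      · linarith [e3.2, e1.1]
      · exact e3.2
    exact ⟨by linarith [e1.1, e1.2], by linarith [e1.1], by linarith [e1.2], by linarith⟩

/-- the matching permutations of the disjoint union of all the graphs -/
def big {C n : ℕ} (e : Pr C) : Equiv.Perm ((Pr C → Equiv.Perm (Fin n)) × Fin n) where
  toFun p := (p.1, p.1 e p.2)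
  invFun p := (p.1, (p.1 e).symm p.2)
  left_inv p := by simp
  right_inv p := by simp

open Classical in
theorem large (K : ℕ) : ∃ (V : Type) (_ : Fintype V) (G : SimpleGraph V),
    sepDim G ≤ 420 ∧ K < pi3 G := by
  obtain ⟨b, hb1, hb⟩ := numeric (K + 1) (by omega)
  set n := b ^ (4 * (K + 1)) with hn
  let Λ := Pr 20 → Equiv.Perm (Fin n)
  let X := Λ × Fin n
  letI : LinearOrder X := LinearOrder.lift' (Fintype.equivFin X) (Fintype.equivFin X).injective
  let G : SimpleGraph (Fin 20 × X) := Gr (C := 20) (X := X) big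
  refine ⟨Fin 20 × X, inferInstance, G, sepDim_Gr_le (C := 20) (X := X) big, ?_⟩
  by_contra hK
  push Not at hK
  have hmem := Nat.sInf_mem (pi3_nonempty G)
  obtain ⟨P, hPc, hPplane, -, φ, hφinj, hφ⟩ := hmem
  have hPK : P.card ≤ K := by
    rw [hPc]; exact hK
  have hfun : ∀ H : {H // H ∈ P}, ∃ ν : E3 →ₗ[ℝ] ℝ,
      LinearMap.ker ν = (H : AffineSubspace ℝ E3).direction :=
    fun H => exists_functional H (hPplane H H.2)
  choose μ hμ using hfun
  let ι := Option {H // H ∈ P}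
  let ν : ι → E3 →ₗ[ℝ] ℝ := fun o => o.elim 0 μ
  have hι : Fintype.card ι ≤ K + 1 := by
    simp only [ι, Fintype.card_option, Fintype.card_coe]
    omega
  let V := Fin 20 × Fin n
  let pl : Λ → V → E3 := fun l v => φ (v.1, (l, v.2))
  have hsep : ∀ (l : Λ) (e : Pr 20) (x : Fin n) (e' : Pr 20) (x' : Fin n),
      ((e.1.1, x) : V) ≠ (e'.1.1, x') → ((e.1.1, x) : V) ≠ (e'.1.2, l e' x') →
      ((e.1.2, l e x) : V) ≠ (e'.1.1, x') → ((e.1.2, l e x) : V) ≠ (e'.1.2, l e' x') →
      ∃ h : ι, (ν h (pl l (e.1.1, x)) < ν h (pl l (e'.1.1, x')) ∧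
        ν h (pl l (e.1.1, x)) < ν h (pl l (e'.1.2, l e' x')) ∧
        ν h (pl l (e.1.2, l e x)) < ν h (pl l (e'.1.1, x')) ∧
        ν h (pl l (e.1.2, l e x)) < ν h (pl l (e'.1.2, l e' x'))) ∨
        (ν h (pl l (e'.1.1, x')) < ν h (pl l (e.1.1, x)) ∧
        ν h (pl l (e'.1.1, x')) < ν h (pl l (e.1.2, l e x)) ∧
        ν h (pl l (e'.1.2, l e' x')) < ν h (pl l (e.1.1, x)) ∧
        ν h (pl l (e'.1.2, l e' x')) < ν h (pl l (e.1.2, l e x))) := by
    intro l e x e' x' h1 h2 h3 h4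
    have inj : ∀ (i j : Fin 20) (y z : Fin n), ((i, y) : V) ≠ (j, z) →
        ((i, (l, y)) : Fin 20 × X) ≠ (j, (l, z)) := by
      intro i j y z h h'
      apply h
      have g1 := (Prod.ext_iff.1 h').1
      have g2 := (Prod.ext_iff.1 (Prod.ext_iff.1 h').2).2
      exact Prod.ext g1 g2
    have hadj : ∀ (e : Pr 20) (x : Fin n), G.Adj (e.1.1, (l, x)) (e.1.2, (l, l e x)) := by
      intro e x
      exact Or.inl ⟨e.2, rfl⟩
    obtain ⟨H, ⟨H', hH', hpar⟩, hside⟩ := hφ (e.1.1, (l, x)) (e.1.2, (l, l e x))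
      (e'.1.1, (l, x')) (e'.1.2, (l, l e' x'))
      ⟨hadj e x, hadj e' x', inj _ _ _ _ h1, inj _ _ _ _ h2, inj _ _ _ _ h3, inj _ _ _ _ h4⟩
    refine ⟨some ⟨H', hH'⟩, ?_⟩
    have hker : LinearMap.ker (μ ⟨H', hH'⟩) = H.direction := by
      rw [hμ ⟨H', hH'⟩, hpar.direction_eq]
    exact four H (μ ⟨H', hH'⟩) hker _ _ _ _
      (hside _ (left_mem_segment _ _ _) _ (left_mem_segment _ _ _))
      (hside _ (left_mem_segment _ _ _) _ (right_mem_segment _ _ _))
      (hside _ (right_mem_segment _ _ _) _ (left_mem_segment _ _ _))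
      (hside _ (right_mem_segment _ _ _) _ (right_mem_segment _ _ _))
  -- parameters
  set B := 20 * b with hB
  have hB2 : 2 ≤ B := by omega
  have hJ : 0 < 4 * (K + 1) := by omega
  have hVcard : Fintype.card V = 20 * n := by simp [V]
  have hVB : Fintype.card V ≤ B ^ (4 * (K + 1)) := by
    rw [hVcard, hB, mul_pow, ← hn]
    have : 20 ^ 1 ≤ 20 ^ (4 * (K + 1)) := Nat.pow_le_pow_right (by norm_num) (by omega)
    rw [pow_one] at this
    exact Nat.mul_le_mul_right _ this
  let T : ℕ := 2 ^ ((Fintype.card (Pr 20) + 1) * ((20 * n) *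
    (2 * (4 * (K + 1))) ^ Fintype.card ι)) *
      (((4 * (K + 1)) * (2 * (B + 1))) ^ Fintype.card ι) ^ (Fintype.card (Pr 20) * n)
  have hfib : ∀ A ∈ (univ : Finset Λ).image (fun l => pat ν (pl l)),
      ((univ : Finset Λ).filter (fun l => pat ν (pl l) = A)).card ≤ T := by
    intro A hA
    obtain ⟨l0, -, hl0⟩ := mem_image.1 hA
    have hr : ∀ h : ι, ∃ r : V → ℕ, Function.Injective r ∧ (∀ v, r v < Fintype.card V) ∧
        ∀ u v, ν h (pl l0 u) < ν h (pl l0 v) → r u < r v :=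
      fun h => exists_rank (fun v => ν h (pl l0 v))
    choose r hr1 hr2 hr3 using hr
    refine le_trans (card_le_card ?_) (card_good_le (C := 20) (n := n) (J := 4 * (K + 1)) (B := B)
      hJ hB2 r hr1 (fun h v => (hr2 h v).trans_le hVB))
    intro l hl
    have hl' : pat ν (pl l) = pat ν (pl l0) := ((mem_filter.1 hl).2).trans hl0.symm
    have tr : ∀ (h : ι) (u v : V), ν h (pl l u) < ν h (pl l v) → r h u < r h v := by
      intro h u v huv
      apply hr3
      rw [← mem_pat, ← hl', mem_pat]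
      exact huv
    refine mem_filter.2 ⟨mem_univ _, ?_⟩
    intro e x e' x' h1 h2 h3 h4
    obtain ⟨h, hh⟩ := hsep l e x e' x' h1 h2 h3 h4
    refine ⟨h, ?_⟩
    rcases hh with ⟨g1, g2, g3, g4⟩ | ⟨g1, g2, g3, g4⟩
    · exact Or.inl ⟨tr _ _ _ g1, tr _ _ _ g2, tr _ _ _ g3, tr _ _ _ g4⟩
    · exact Or.inr ⟨tr _ _ _ g1, tr _ _ _ g2, tr _ _ _ g3, tr _ _ _ g4⟩
  have hcount := card_le_mul_card_image (univ : Finset Λ) T hfib
  have hpat := card_pat_le (V := V) ν ((univ : Finset Λ).image (fun l => pat ν (pl l)))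
    (by
      intro A hA
      obtain ⟨l0, -, hl0⟩ := mem_image.1 hA
      exact ⟨pl l0, hl0⟩)
  have hdim : Module.finrank ℝ (V → E3) = 3 * (20 * n) := by
    rw [Module.finrank_pi_fintype]
    simp only [finrank_euclideanSpace, Fintype.card_fin, sum_const, card_univ, hVcard, smul_eq_mul]
    ring
  have hidx : Fintype.card (ι × V × V) ≤ (K + 1) * (20 * n) ^ 2 := by
    rw [Fintype.card_prod, Fintype.card_prod, hVcard, sq]
    exact Nat.mul_le_mul_right _ hι
  have hΛ : (univ : Finset Λ).card = n.factorial ^ 190 := by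
    rw [card_univ, Fintype.card_fun, card_Pr, Fintype.card_perm, Fintype.card_fin]
  have hT : T ≤ 2 ^ (191 * ((20 * n) * (2 * (4 * (K + 1))) ^ (K + 1))) *
      (((4 * (K + 1)) * (2 * (20 * b + 1))) ^ (K + 1)) ^ (190 * n) := by
    simp only [T, card_Pr]
    apply Nat.mul_le_mul
    · apply Nat.pow_le_pow_right (by norm_num)
      apply Nat.mul_le_mul_left
      apply Nat.mul_le_mul_left
      exact Nat.pow_le_pow_right (by omega) hι
    · apply Nat.pow_le_pow_left
      apply Nat.pow_le_pow_right (by positivity) hι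
  have hfin : n.factorial ^ 190 ≤ ((K + 1) * (20 * n) ^ 2 + 1) ^ (3 * (20 * n)) *
      (2 ^ (191 * ((20 * n) * (2 * (4 * (K + 1))) ^ (K + 1))) *
      (((4 * (K + 1)) * (2 * (20 * b + 1))) ^ (K + 1)) ^ (190 * n)) := by
    rw [← hΛ]
    refine hcount.trans ?_
    rw [mul_comm]
    apply Nat.mul_le_mul _ hT
    refine hpat.trans ?_
    rw [hdim]
    exact Nat.pow_le_pow_left (by omega) _
  exact absurd hb (not_lt.2 hfin)

end Pool.Agent.MP_38bec9_co
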