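import Pool.Agent.MP_38bec9_co.Main

set_option autoImplicit false

namespace Pool.Agent.MP_38bec9_co

open Finset

/-- for two disjoint pairs of vertices some linear order puts the first pair first -/
lemma exists_order {V : Type} [Fintype V] (a b c d : V) (hac : a ≠ c) (had : a ≠ d) (hbc : b ≠ c)
    (hbd : b ≠ d) : ∃ σ : LinearOrder V, σ.lt a c ∧ σ.lt a d ∧ σ.lt b c ∧ σ.lt b d := by
  classical
  let key : V → ℕ ×ₗ Fin (Fintype.card V) := fun v =>
    toLex ((if v = a ∨ v = b then 0 else 1 : ℕ), Fintype.equivFin V v)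
  have hkey : Function.Injective key := fun u v h => by
    have := congrArg (fun z => (ofLex z).2) h
    exact (Fintype.equivFin V).injective this
  have hlt : ∀ u v : V, (u = a ∨ u = b) → ¬ (v = a ∨ v = b) → key u < key v := by
    intro u v hu hv
    apply Prod.Lex.left
    rw [if_pos hu, if_neg hv]
    exact Nat.zero_lt_one
  refine ⟨LinearOrder.lift' key hkey, hlt a c (Or.inl rfl) ?_, hlt a d (Or.inl rfl) ?_,
    hlt b c (Or.inr rfl) ?_, hlt b d (Or.inr rfl) ?_⟩
  · rintro (h | h); exacts [hac h.symm, hbc h.symm]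
  · rintro (h | h); exacts [had h.symm, hbd h.symm]
  · rintro (h | h); exacts [hac h.symm, hbc h.symm]
  · rintro (h | h); exacts [had h.symm, hbd h.symm]

open Classical in
/-- `π(G)` is the minimum of a nonempty set for every finite graph `G`. -/
theorem sepDim_nonempty {V : Type} [Fintype V] (G : SimpleGraph V) :
    {k : ℕ | ∃ F : Finset (LinearOrder V), F.card = k ∧ PairwiseSuitable G F}.Nonempty := by
  have key : ∀ q : V × V × V × V, DisjEdges G q.1 q.2.1 q.2.2.1 q.2.2.2 →
      ∃ σ : LinearOrder V, σ.lt q.1 q.2.2.1 ∧ σ.lt q.1 q.2.2.2 ∧ σ.lt q.2.1 q.2.2.1 ∧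
        σ.lt q.2.1 q.2.2.2 := fun q h => exists_order _ _ _ _ h.2.2.1 h.2.2.2.1 h.2.2.2.2.1 h.2.2.2.2.2
  by_cases hne : Nonempty (LinearOrder V)
  · choose! g hg using key
    refine ⟨_, (univ : Finset (V × V × V × V)).image g, rfl, ?_⟩
    intro a b c d h
    exact ⟨g (a, b, c, d), mem_image.2 ⟨_, mem_univ _, rfl⟩, Or.inl (hg (a, b, c, d) h)⟩
  · refine ⟨_, ∅, rfl, ?_⟩
    intro a b c d h
    obtain ⟨σ, _⟩ := key (a, b, c, d) h
    exact absurd ⟨σ⟩ hne

end Pool.Agent.MP_38bec9_co
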