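import Pool.Agent.MP_38bec9_co.Defs
import Pool.Agent.MP_38bec9_co.Count

set_option autoImplicit false

namespace Pool.Agent.MP_38bec9_co

open Finset

/-- The graph on `Fin C × X` with a perfect matching `σ e` between any two colour classes. -/
def Gr {C : ℕ} {X : Type} (σ : Pr C → Equiv.Perm X) : SimpleGraph (Fin C × X) where
  Adj u v := (∃ h : u.1 < v.1, σ ⟨(u.1, v.1), h⟩ u.2 = v.2) ∨
    (∃ h : v.1 < u.1, σ ⟨(v.1, u.1), h⟩ v.2 = u.2)
  symm := ⟨fun u v h => h.symm⟩
  loopless := ⟨fun u h => by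
    rcases h with ⟨h, _⟩ | ⟨h, _⟩ <;> exact lt_irrefl _ h⟩

variable {C : ℕ} {X : Type}

/-- the vertex of class `i` whose star contains `v` -/
def star (σ : Pr C → Equiv.Perm X) (i : Fin C) (v : Fin C × X) : X :=
  if h : i < v.1 then (σ ⟨(i, v.1), h⟩).symm v.2 else
    if h : v.1 < i then σ ⟨(v.1, i), h⟩ v.2 else v.2

lemma star_self (σ : Pr C → Equiv.Perm X) (i : Fin C) (x : X) : star σ i (i, x) = x := by
  simp [star]

lemma star_adj (σ : Pr C → Equiv.Perm X) (u v : Fin C × X) (h : (Gr σ).Adj u v) :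
    star σ u.1 v = u.2 := by
  rcases h with ⟨h, h'⟩ | ⟨h, h'⟩
  · simp only [star, h, dif_pos]
    rw [← h', Equiv.symm_apply_apply]
  · simp only [star, h, dif_pos, not_lt.2 h.le, dif_neg, not_false_iff]
    exact h'

lemma star_inj (σ : Pr C → Equiv.Perm X) (i : Fin C) :
    Function.Injective (fun v : Fin C × X => (star σ i v, v.1)) := by
  rintro ⟨j, x⟩ ⟨k, y⟩ h
  simp only [Prod.mk.injEq] at h
  obtain ⟨h1, h2⟩ := h
  subst h2
  congr 1
  unfold star at h1
  by_cases h3 : i < j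
  · simp only [h3, dif_pos] at h1
    exact (σ _).symm.injective h1
  · by_cases h4 : j < i
    · simp only [h3, h4, dif_pos, dif_neg, not_false_iff] at h1
      exact (σ _).injective h1
    · simpa only [h3, h4, dif_neg, not_false_iff] using h1

/-- order by stars centred in class `i` -/
noncomputable def ordStar [LinearOrder X] (σ : Pr C → Equiv.Perm X) (i : Fin C) :
    LinearOrder (Fin C × X) :=
  LinearOrder.lift' (fun v => (toLex (star σ i v, v.1) : X ×ₗ Fin C))
    (fun _ _ h => star_inj σ i (by simpa using h))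

lemma ordStar_lt [LinearOrder X] (σ : Pr C → Equiv.Perm X) (i : Fin C) (u v : Fin C × X)
    (h : star σ i u < star σ i v) : (ordStar σ i).lt u v := by
  show (toLex (star σ i u, u.1) : X ×ₗ Fin C) < toLex (star σ i v, v.1)
  exact Prod.Lex.left _ _ h

/-- order that puts the classes `i, j` first -/
noncomputable def ordPair [LinearOrder X] (i j : Fin C) : LinearOrder (Fin C × X) :=
  LinearOrder.lift' (fun v => (toLex ((if v.1 = i ∨ v.1 = j then 0 else 1 : ℕ),
    (toLex v : Fin C ×ₗ X)) : ℕ ×ₗ (Fin C ×ₗ X)))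
    (fun u v h => by
      have := congrArg (fun z => (ofLex z).2) h
      simpa using this)

lemma ordPair_lt [LinearOrder X] (i j : Fin C) (u v : Fin C × X)
    (hu : u.1 = i ∨ u.1 = j) (hv : ¬ (v.1 = i ∨ v.1 = j)) :
    (ordPair (X := X) i j).lt u v := by
  show (toLex ((if u.1 = i ∨ u.1 = j then 0 else 1 : ℕ),
    (toLex u : Fin C ×ₗ X)) : ℕ ×ₗ (Fin C ×ₗ X)) < toLex ((if v.1 = i ∨ v.1 = j then 0 else 1 : ℕ),
    (toLex v : Fin C ×ₗ X))
  apply Prod.Lex.left
  rw [if_pos hu, if_neg hv]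
  exact Nat.zero_lt_one

lemma star_case [LinearOrder X] (σ : Pr C → Equiv.Perm X) (a b c d : Fin C × X)
    (hab : (Gr σ).Adj a b) (hcd : (Gr σ).Adj c d) (hac : a ≠ c) (h1 : a.1 = c.1) :
    ((ordStar σ a.1).lt a c ∧ (ordStar σ a.1).lt a d ∧ (ordStar σ a.1).lt b c ∧
      (ordStar σ a.1).lt b d) ∨
    ((ordStar σ a.1).lt c a ∧ (ordStar σ a.1).lt c b ∧ (ordStar σ a.1).lt d a ∧
      (ordStar σ a.1).lt d b) := by
  have ha : star σ a.1 a = a.2 := star_self σ a.1 a.2
  have hb : star σ a.1 b = a.2 := star_adj σ a b hab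
  have hc : star σ a.1 c = c.2 := by rw [h1]; exact star_self σ c.1 c.2
  have hd : star σ a.1 d = c.2 := by rw [h1]; exact star_adj σ c d hcd
  have hne : a.2 ≠ c.2 := fun h => hac (Prod.ext h1 h)
  rcases lt_or_gt_of_ne hne with h | h
  · left
    refine ⟨?_, ?_, ?_, ?_⟩ <;> apply ordStar_lt <;> simpa only [ha, hb, hc, hd] using h
  · right
    refine ⟨?_, ?_, ?_, ?_⟩ <;> apply ordStar_lt <;> simpa only [ha, hb, hc, hd] using h

open Classical in
theorem sepDim_Gr_le [LinearOrder X] (σ : Pr C → Equiv.Perm X) : sepDim (Gr σ) ≤ C + C * C := by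
  let F : Finset (LinearOrder (Fin C × X)) :=
    (univ : Finset (Fin C)).image (ordStar σ) ∪
      (univ : Finset (Fin C × Fin C)).image (fun p => ordPair (X := X) p.1 p.2)
  have hF : F.card ≤ C + C * C := by
    refine (card_union_le _ _).trans ?_
    refine add_le_add (card_image_le.trans (by simp)) (card_image_le.trans (by simp))
  refine le_trans (Nat.sInf_le ⟨F, rfl, ?_⟩) hF
  intro a b c d h
  obtain ⟨hab, hcd, hac, had, hbc, hbd⟩ := h
  have mem1 : ∀ i, ordStar σ i ∈ F := fun i =>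
    mem_union_left _ (mem_image.2 ⟨i, mem_univ _, rfl⟩)
  have mem2 : ∀ i j, ordPair (X := X) i j ∈ F := fun i j =>
    mem_union_right _ (mem_image.2 ⟨(i, j), mem_univ _, rfl⟩)
  by_cases h1 : a.1 = c.1
  · exact ⟨_, mem1 a.1, star_case σ a b c d hab hcd hac h1⟩
  by_cases h2 : a.1 = d.1
  · refine ⟨_, mem1 a.1, ?_⟩
    have := star_case σ a b d c hab hcd.symm had h2
    tauto
  by_cases h3 : b.1 = c.1
  · refine ⟨_, mem1 b.1, ?_⟩
    have := star_case σ b a c d hab.symm hcd hbc h3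
    tauto
  by_cases h4 : b.1 = d.1
  · refine ⟨_, mem1 b.1, ?_⟩
    have := star_case σ b a d c hab.symm hcd.symm hbd h4
    tauto
  refine ⟨_, mem2 a.1 b.1, Or.inl ⟨?_, ?_, ?_, ?_⟩⟩
  · apply ordPair_lt
    · exact Or.inl rfl
    · rintro (h | h)
      · exact h1 h.symm
      · exact h3 h.symm
  · apply ordPair_lt
    · exact Or.inl rfl
    · rintro (h | h)
      · exact h2 h.symm
      · exact h4 h.symm
  · apply ordPair_lt
    · exact Or.inr rfl
    · rintro (h | h)
      · exact h1 h.symm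
      · exact h3 h.symm
  · apply ordPair_lt
    · exact Or.inr rfl
    · rintro (h | h)
      · exact h2 h.symm
      · exact h4 h.symm

end Pool.Agent.MP_38bec9_co
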